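import Mathlib
import Pool.Agent.Results.MP_15d263_co.Aligned
import Pool.Agent.Results.MP_15d263_co.AllPairs

set_option autoImplicit false

/-!
# An isohedral tiling in which every pair of disjoint tiles tiles isohedrally

The tiling is the regular tiling by unit squares. The definitions `Plane`, `IsTiling`,
`Monohedral`, `IsSymmetry`, `Isohedral` are those of
`Pool.Agent.Results.MP_15d263_co.Aligned`.
-/

namespace Pool.Agent.Results.MP_5a5b3b_co.SquareTiling

open Pool.Agent.Results.MP_15d263_co.Aligned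

/-- A closed topological disk: a subset of the plane homeomorphic to the closed unit disk. -/
def IsClosedDisk (s : Set Plane) : Prop :=
  Nonempty (s ≃ₜ (Metric.closedBall (0 : Plane) 1))

/-- `P` is the prototile of an isohedral tiling. -/
def IsIsohedralPrototile (P : Set Plane) : Prop :=
  ∃ G : Set (Set Plane), IsTiling G ∧ Monohedral G P ∧ Isohedral G

/-- the regular tiling by unit squares centred at the integer points -/
noncomputable def squares : Set (Set Plane) :=
  Set.range (fun p : ℤ × ℤ => sq (pt p.1 p.2))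

theorem isBounded_sq (c : Plane) : Bornology.IsBounded (sq c) := by
  rw [Metric.isBounded_iff_subset_closedBall c]
  refine ⟨1, fun z hz => ?_⟩
  have h := sq_subset_ball c z hz
  rw [Metric.mem_closedBall]
  nlinarith [dist_nonneg (x := z) (y := c)]

theorem isClosedDisk_sq (c : Plane) : IsClosedDisk (sq c) := by
  obtain ⟨e, -, he, -⟩ := exists_homeomorph_image_interior_closure_frontier_eq_unitBall
    (convex_sq c) ⟨c, mem_interior_sq c⟩ (isBounded_sq c)
  rw [(isClosed_sq c).closure_eq] at he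
  exact ⟨(e.image (sq c)).trans (Homeomorph.setCongr he)⟩

theorem squares_tiling : IsTiling squares := by
  refine ⟨Set.countable_range _, ?_, ?_, ?_⟩
  · rintro _ ⟨p, rfl⟩
    exact isClosed_sq _
  · rw [Set.eq_univ_iff_forall]
    intro z
    refine ⟨_, ⟨(round (z 0), round (z 1)), rfl⟩, ?_⟩
    constructor
    · simpa using abs_sub_round (z 0)
    · simpa using abs_sub_round (z 1)
  · rintro _ ⟨p, rfl⟩ _ ⟨p', rfl⟩ hne
    have hpp : (p.1, p.2) ≠ (p'.1, p'.2) := fun h => hne (by
      rw [Prod.mk.injEq] at h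
      simp only [h.1, h.2])
    rw [Set.disjoint_iff_inter_eq_empty, ← interior_inter]
    obtain ⟨i, r, h⟩ := sq_inter_sub 0 hpp
    have h1 : ∀ k j : ℤ, C 0 k j = pt k j := fun k j => by simp [C]
    rw [h1, h1] at h
    exact Set.eq_empty_of_subset_empty (interior_line i r ▸ interior_mono h)

theorem translate_sq (p v : ℤ × ℤ) :
    (IsometryEquiv.addRight (pt v.1 v.2)) '' sq (pt p.1 p.2) =
      sq (pt ((p + v).1 : ℤ) ((p + v).2 : ℤ)) := by
  rw [image_add]
  congr 1
  apply ext2 <;> simp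

theorem squares_isohedral : Isohedral squares := by
  rintro _ ⟨p, rfl⟩ _ ⟨p', rfl⟩
  refine ⟨IsometryEquiv.addRight (pt (p' - p).1 (p' - p).2), ?_, ?_⟩
  · ext t
    constructor
    · rintro ⟨_, ⟨q, rfl⟩, rfl⟩
      exact ⟨q + (p' - p), (translate_sq q (p' - p)).symm⟩
    · rintro ⟨q, rfl⟩
      refine ⟨_, ⟨q - (p' - p), rfl⟩, ?_⟩
      have := translate_sq (q - (p' - p)) (p' - p)
      rw [sub_add_cancel] at this
      exact this
  · have := translate_sq p (p' - p)
    rw [add_sub_cancel] at this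
    exact this

theorem pair_prototile {p q : ℤ × ℤ}
    (h : Disjoint (sq (pt p.1 p.2)) (sq (pt q.1 q.2))) :
    IsIsohedralPrototile (sq (pt p.1 p.2) ∪ sq (pt q.1 q.2)) := by
  set x := q.1 - p.1 with hx
  set y := q.2 - p.2 with hy
  have hxy : 2 ≤ max |x| |y| := by
    by_contra hlt
    rw [not_le, max_lt_iff] at hlt
    have hx1 : |x| ≤ 1 := by omega
    have hy1 : |y| ≤ 1 := by omega
    have hx2 : |(x : ℝ)| ≤ 1 := by exact_mod_cast hx1
    have hy2 : |(y : ℝ)| ≤ 1 := by exact_mod_cast hy1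
    rw [abs_le] at hx2 hy2
    have hx3 : (x : ℝ) = q.1 - p.1 := by rw [hx]; push_cast; ring
    have hy3 : (y : ℝ) = q.2 - p.2 := by rw [hy]; push_cast; ring
    have hdl : ∀ z : Plane, z ∈ sq (pt p.1 p.2) → z ∈ sq (pt q.1 q.2) → False :=
      fun z h1 h2 => Set.disjoint_left.1 h h1 h2
    refine hdl (pt (((p.1 : ℝ) + q.1) / 2) (((p.2 : ℝ) + q.2) / 2)) ?_ ?_
    · constructor <;> simp only [pt_zero, pt_one] <;> rw [abs_le] <;> constructor <;> linarith
    · constructor <;> simp only [pt_zero, pt_one] <;> rw [abs_le] <;> constructor <;> linarith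
  obtain ⟨G, h1, h2, h3⟩ :=
    Pool.Agent.Results.MP_15d263_co.AllPairs.result x y hxy
  refine ⟨G, h1, ?_, h3.1⟩
  intro t ht
  obtain ⟨g, hg⟩ := h2 t ht
  refine ⟨(IsometryEquiv.addRight (pt (-p.1 : ℤ) (-p.2 : ℤ))).trans g, ?_⟩
  have h4 : (IsometryEquiv.addRight (pt (-p.1 : ℤ) (-p.2 : ℤ))) ''
      (sq (pt p.1 p.2) ∪ sq (pt q.1 q.2)) = T x y := by
    rw [Set.image_union, image_add, image_add, T]
    congr 2
    · apply ext2 <;> simp
    · apply ext2
      · simp [hx]; ring
      · simp [hy]; ring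
  rw [← hg, ← h4, Set.image_image]
  rfl

/-- There is an isohedral tiling of the plane by closed topological disks (the square tiling)
such that the union of any two disjoint tiles is the prototile of an isohedral tiling. -/
theorem result :
    ∃ F : Set (Set Plane), IsTiling F ∧ (∃ P, Monohedral F P) ∧ Isohedral F ∧
      (∀ t ∈ F, IsClosedDisk t) ∧
      (∃ t₁ ∈ F, ∃ t₂ ∈ F, Disjoint t₁ t₂) ∧
      ∀ t₁ ∈ F, ∀ t₂ ∈ F, Disjoint t₁ t₂ → IsIsohedralPrototile (t₁ ∪ t₂) := by
  refine ⟨squares, squares_tiling, ⟨sq (pt 0 0), ?_⟩, squares_isohedral, ?_, ?_, ?_⟩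
  · rintro _ ⟨p, rfl⟩
    refine ⟨IsometryEquiv.addRight (pt p.1 p.2), ?_⟩
    rw [image_add]
    congr 1
    apply ext2 <;> simp
  · rintro _ ⟨p, rfl⟩
    exact isClosedDisk_sq _
  · refine ⟨_, ⟨(0, 0), rfl⟩, _, ⟨(2, 0), rfl⟩, ?_⟩
    apply disjoint_sq
    left
    simp
  · rintro _ ⟨p, rfl⟩ _ ⟨q, rfl⟩ h
    exact pair_prototile h

end Pool.Agent.Results.MP_5a5b3b_co.SquareTiling
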